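import Pool.Agent.COSB.StmtsB
import Pool.Agent.Helper50_COS.MCH

/-! Row MCB of squad COSB (MP_0fc649_lc): `val2` is computed in polynomial time. -/

set_option autoImplicit false

namespace Pool.Agent.COSB.H75

open Turing Computability Pool.Agent.UT.Num Pool.Agent.H2XG Pool.Agent.PAR Pool.Agent.COS
open Pool.Agent.COS.H50 (blF)

section

variable (F : Type) [Field F] [Fintype F] [DecidableEq F] {m : ℕ}

/-- functions with values in `F` -/
def FPF (m : ℕ) (u : (Fin m → List K) → F) : Prop := FPW m (fun ρ => cF F (u ρ))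

variable {F}

theorem gfF (htbl : TblStmt) {n i j : (Fin m → List K) → ℕ} {w : (Fin m → List K) → Word}
    (hw : FPW m w) (hn : FPN m n) (hi : FPN m i) (hj : FPN m j) :
    FPF F m (fun ρ => gF F (n ρ) (w ρ) (i ρ) (j ρ)) :=
  htbl.2.2.1 F m w n i j hw hn hi hj

theorem opF (htbl : TblStmt) (g : F → F → F) {u v : (Fin m → List K) → F} (hu : FPF F m u)
    (hv : FPF F m v) : FPF F m (fun ρ => g (u ρ) (v ρ)) :=
  htbl.2.2.2.1 F m g u v hu hv

theorem rlF (htbl : TblStmt) (g : F → F → Bool) {u v : (Fin m → List K) → F} (hu : FPF F m u)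
    (hv : FPF F m v) : FPB m (fun ρ => g (u ρ) (v ρ)) :=
  htbl.2.2.2.2.1 F m g u v hu hv

theorem suF (htbl : TblStmt) {n : (Fin m → List K) → ℕ} (hn : FPN m n)
    {b : ℕ → (Fin m → List K) → F} (hb : FPF F (m + 1) (fun σ => b (σ 0).length (fun i => σ i.succ))) :
    FPF F m (fun ρ => ∑ l ∈ Finset.range (n ρ), b l ρ) :=
  htbl.2.2.2.2.2 F m n b hn hb

theorem okMF (htbl : TblStmt) {n : (Fin m → List K) → ℕ} {w : (Fin m → List K) → Word}
    (hn : FPN m n) (hw : FPW m w) : FPB m (fun ρ => okM F (n ρ) (w ρ)) := by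
  unfold okM
  refine FPB.and (FPB.eqN (FPW.len hw) (FPN.mul (FPN.mul hn hn) (FPN.const _))) ?_
  refine FPB.all (FPN.mul hn hn) (b := fun t ρ => okF F (blW (Fintype.card F) (w ρ) t)) ?_
  exact htbl.2.1 (m + 1) (Fintype.card F) (okF F)
    (fun σ => blW (Fintype.card F) (w fun i => σ i.succ) (σ 0).length)
    (blF (FPN.const _) (FPW.weak hw) FPN.v0) (fun ρ => List.length_take_le _ _)

theorem invF (htbl : TblStmt) {n : (Fin m → List K) → ℕ} {a b : (Fin m → List K) → Word}
    (hn : FPN m n) (ha : FPW m a) (hb : FPW m b) :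
    FPB m (fun ρ => invW F (n ρ) (a ρ) (b ρ)) := by
  have hn1 := FPN.weak hn
  have hn2 := FPN.weak hn1
  have hn3 := FPN.weak hn2
  have ha3 := FPW.weak (FPW.weak (FPW.weak ha))
  have hb3 := FPW.weak (FPW.weak (FPW.weak hb))
  have v2 : FPN (C := K) (m + 3) (fun σ => (σ 2).length) := FPN.len (FP.var 2)
  unfold invW
  refine FPB.all hn (b := fun i ρ => decide (∀ j < n ρ,
    decide ((∑ l ∈ Finset.range (n ρ), gF F (n ρ) (a ρ) i l * gF F (n ρ) (b ρ) l j) =
      if i = j then 1 else 0) = true)) ?_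
  refine FPB.all hn1 (b := fun j σ =>
    decide ((∑ l ∈ Finset.range (n fun i => σ i.succ), gF F (n fun i => σ i.succ)
      (a fun i => σ i.succ) (σ 0).length l * gF F (n fun i => σ i.succ) (b fun i => σ i.succ) l j) =
      if (σ 0).length = j then 1 else 0)) ?_
  have hs : FPF F (m + 2) (fun σ => ∑ l ∈ Finset.range (n fun i => σ i.succ.succ),
      gF F (n fun i => σ i.succ.succ) (a fun i => σ i.succ.succ) (σ 1).length l *
        gF F (n fun i => σ i.succ.succ) (b fun i => σ i.succ.succ) l (σ 0).length) := by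
    refine suF htbl hn2 (b := fun l σ => gF F (n fun i => σ i.succ.succ)
      (a fun i => σ i.succ.succ) (σ 1).length l *
        gF F (n fun i => σ i.succ.succ) (b fun i => σ i.succ.succ) l (σ 0).length) ?_
    exact opF htbl (fun u v => u * v) (gfF htbl ha3 hn3 v2 FPN.v0) (gfF htbl hb3 hn3 FPN.v0 FPN.v1)
  refine FPB.congr (FPB.ite (FPB.eqN FPN.v1 FPN.v0) (rlF htbl (fun u _ => decide (u = 1)) hs hs)
    (rlF htbl (fun u _ => decide (u = 0)) hs hs)) fun σ => ?_
  show decide ((∑ l ∈ Finset.range (n fun i => σ i.succ.succ),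
      gF F (n fun i => σ i.succ.succ) (a fun i => σ i.succ.succ) (σ 1).length l *
        gF F (n fun i => σ i.succ.succ) (b fun i => σ i.succ.succ) l (σ 0).length) =
      if (σ 1).length = (σ 0).length then 1 else 0) = _
  by_cases h : (σ 1).length = (σ 0).length
  · rw [if_pos h, if_pos (decide_eq_true h)]
  · rw [if_neg h, if_neg (by simpa using h)]

theorem cnnF (htbl : TblStmt) {n : (Fin m → List K) → ℕ} {a : (Fin m → List K) → Word}
    (hn : FPN m n) (ha : FPW m a) : FPB m (fun ρ => cnnW F (n ρ) (a ρ)) := by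
  have hn1 := FPN.weak hn
  have hn2 := FPN.weak hn1
  have hn3 := FPN.weak hn2
  have hn4 := FPN.weak hn3
  have ha1 := FPW.weak ha
  have ha2 := FPW.weak ha1
  have ha3 := FPW.weak ha2
  have ha4 := FPW.weak ha3
  have v2 : FPN (C := K) (m + 3) (fun σ => (σ 2).length) := FPN.len (FP.var 2)
  have v2' : FPN (C := K) (m + 4) (fun σ => (σ 2).length) := FPN.len (FP.var 2)
  have v3 : FPN (C := K) (m + 4) (fun σ => (σ 3).length) := FPN.len (FP.var 3)
  unfold cnnW
  refine FPB.and ?_ ?_
  · refine FPB.all hn (b := fun j ρ => decide (∀ i < n ρ,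
      (!decide (∀ i' < i, decide (gF F (n ρ) (a ρ) i' j = 0) = true) ||
        decide (gF F (n ρ) (a ρ) i j = 0) || decide (gF F (n ρ) (a ρ) i j = 1)) = true)) ?_
    refine FPB.all hn1 (b := fun i σ =>
      (!decide (∀ i' < i, decide (gF F (n fun i => σ i.succ) (a fun i => σ i.succ) i'
        (σ 0).length = 0) = true) ||
        decide (gF F (n fun i => σ i.succ) (a fun i => σ i.succ) i (σ 0).length = 0) ||
        decide (gF F (n fun i => σ i.succ) (a fun i => σ i.succ) i (σ 0).length = 1))) ?_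
    have hg := gfF (F := F) htbl ha2 hn2 FPN.v0 FPN.v1
    refine FPB.or (FPB.or (FPB.not ?_) (rlF htbl (fun u _ => decide (u = 0)) hg hg))
      (rlF htbl (fun u _ => decide (u = 1)) hg hg)
    refine FPB.all FPN.v0 (b := fun i' σ => decide (gF F (n fun i => σ i.succ.succ)
      (a fun i => σ i.succ.succ) i' (σ 1).length = 0)) ?_
    have hg3 := gfF (F := F) htbl ha3 hn3 FPN.v0 v2
    exact rlF htbl (fun u _ => decide (u = 0)) hg3 hg3
  · refine FPB.all hn (b := fun j ρ => decide (∀ j' < n ρ, (!decide (j < j') || decide (∃ i < n ρ,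
      (decide (∀ i' < i, decide (gF F (n ρ) (a ρ) i' j = gF F (n ρ) (a ρ) i' j') = true) &&
        decide (eF F (gF F (n ρ) (a ρ) i j) < eF F (gF F (n ρ) (a ρ) i j'))) = true)) = true)) ?_
    refine FPB.all hn1 (b := fun j' σ => (!decide ((σ 0).length < j') ||
      decide (∃ i < n fun i => σ i.succ,
      (decide (∀ i' < i, decide (gF F (n fun i => σ i.succ) (a fun i => σ i.succ) i' (σ 0).length =
        gF F (n fun i => σ i.succ) (a fun i => σ i.succ) i' j') = true) &&
        decide (eF F (gF F (n fun i => σ i.succ) (a fun i => σ i.succ) i (σ 0).length) <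
          eF F (gF F (n fun i => σ i.succ) (a fun i => σ i.succ) i j'))) = true))) ?_
    refine FPB.or (FPB.not (FPB.ltN FPN.v1 FPN.v0)) ?_
    refine FPB.exists hn2 (b := fun i σ =>
      (decide (∀ i' < i, decide (gF F (n fun i => σ i.succ.succ) (a fun i => σ i.succ.succ) i'
        (σ 1).length =
        gF F (n fun i => σ i.succ.succ) (a fun i => σ i.succ.succ) i' (σ 0).length) = true) &&
        decide (eF F (gF F (n fun i => σ i.succ.succ) (a fun i => σ i.succ.succ) i (σ 1).length) <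
          eF F (gF F (n fun i => σ i.succ.succ) (a fun i => σ i.succ.succ) i (σ 0).length)))) ?_
    refine FPB.and ?_ (rlF htbl (fun u v => decide (eF F u < eF F v))
      (gfF htbl ha3 hn3 FPN.v0 v2) (gfF htbl ha3 hn3 FPN.v0 FPN.v1))
    refine FPB.all FPN.v0 (b := fun i' σ => decide (gF F (n fun i => σ i.succ.succ.succ)
      (a fun i => σ i.succ.succ.succ) i' (σ 2).length =
        gF F (n fun i => σ i.succ.succ.succ) (a fun i => σ i.succ.succ.succ) i' (σ 1).length)) ?_
    exact rlF htbl (fun u v => decide (u = v))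
      (gfF htbl ha4 hn4 FPN.v0 v3) (gfF htbl ha4 hn4 FPN.v0 v2')

end

/-- **MCB** -/
theorem mcb (htbl : TblStmt) (hmem : MemStmt) : McbStmt := by
  intro F _ _ _ val len hval hlen V p d k hV
  have hU := hmem F V p d k hV
  refine polyPair_of' (g := fun x C => val2 F val len V p (k.eval x.length) (d.eval x.length) x C)
    fun m x C hx hC => ?_
  have hn : FPN m (fun ρ => d.eval (x ρ).length) := FPN.poly (FPW.len hx) d
  have hk : FPN m (fun ρ => k.eval (x ρ).length) := FPN.poly (FPW.len hx) k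
  have c : ∀ i : ℕ, FPN (C := K) m (fun _ => i) := fun i => FPN.const i
  have hN : FPN m (fun ρ => d.eval (x ρ).length * d.eval (x ρ).length * Fintype.card F) :=
    FPN.mul (FPN.mul hn hn) (c _)
  have hnq : FPN m (fun ρ => d.eval (x ρ).length * Fintype.card F) := FPN.mul hn (c _)
  have hl : FPN m (fun ρ => lenC F p (k.eval (x ρ).length) (d.eval (x ρ).length)) := by
    unfold lenC
    exact FPN.add hN (FPN.mul (FPN.mul (FPN.mul hn hn) hk) (c _))
  have bl : ∀ i : ℕ, FPW m (fun ρ => blW (d.eval (x ρ).length * d.eval (x ρ).length *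
      Fintype.card F) (C ρ) i) := fun i => blF hN hC (c i)
  unfold val2
  refine FPB.and (FPB.and (FPB.and (FPB.and
    (FPB.eqN (FPW.len hC) (FPN.add (FPN.mul (c 4) hN) (hlen m _ _ hnq hl)))
    (FPB.and (FPB.and (FPB.and (okMF htbl hn (bl 0)) (okMF htbl hn (bl 1)))
      (okMF htbl hn (bl 2))) (okMF htbl hn (bl 3))))
    (FPB.and (invF htbl hn (bl 0) (bl 1)) (invF htbl hn (bl 2) (bl 3))))
    (FPB.and (cnnF htbl hn (bl 0)) (cnnF htbl hn (bl 2)))) ?_
  exact hval (fun x a a' A c => memW F V p (k.eval x.length) (d.eval x.length) x a a' A c) hU m x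
    (fun ρ => blW (d.eval (x ρ).length * d.eval (x ρ).length * Fintype.card F) (C ρ) 0)
    (fun ρ => blW (d.eval (x ρ).length * d.eval (x ρ).length * Fintype.card F) (C ρ) 2)
    (fun ρ => (C ρ).drop (4 * (d.eval (x ρ).length * d.eval (x ρ).length * Fintype.card F)))
    (fun ρ => d.eval (x ρ).length * Fintype.card F)
    (fun ρ => lenC F p (k.eval (x ρ).length) (d.eval (x ρ).length)) hx (bl 0) (bl 2)
    (FPW.drop hC (FPN.mul (c 4) hN)) hnq hl

end Pool.Agent.COSB.H75
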