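import Pool.Agent.COSB.StmtsA
import Pool.Agent.Helper50_COS.MCH

/-! Row AM1 of squad COSB (MP_0fc649_lc): `half` and `gm` are computed in polynomial time. -/

set_option autoImplicit false

namespace Pool.Agent.COSB.H75A

open Turing Computability Pool.Agent.UT.Num Pool.Agent.H2XG Pool.Agent.PAR Pool.Agent.COS
open Pool.Agent.LATM
open Pool.Agent.COS.H50 (gtF redF uniF)

variable {m : ℕ}

theorem gEV {n k i j : (Fin m → List K) → ℕ} {w : (Fin m → List K) → Word} (hn : FPN m n)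
    (hk : FPN m k) (hw : FPW m w) (hi : FPN m i) (hj : FPN m j) :
    FPV m (fun ρ => gE (n ρ) (k ρ) (w ρ) (i ρ) (j ρ)) :=
  FPV.ofW (FPW.take (FPW.drop hw (FPN.mul (FPN.add (FPN.mul hi hn) hj) hk)) hk)

theorem gCV {n k i j : (Fin m → List K) → ℕ} {w : (Fin m → List K) → Word} (hn : FPN m n)
    (hk : FPN m k) (hw : FPW m w) (hi : FPN m i) (hj : FPN m j) :
    FPV m (fun ρ => gC (n ρ) (k ρ) (w ρ) (i ρ) (j ρ)) := by
  have hn1 := FPN.weak hn
  have hi1 := FPN.weak hi
  have hj1 := FPN.weak hj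
  refine FPV.ofW (FPW.range hk (b := fun b ρ => (w ρ).getD (b * (n ρ * n ρ) +
    (i ρ * n ρ + j ρ)) false) ?_)
  exact FPW.getD (FPW.weak hw) (FPN.add (FPN.mul FPN.v0 (FPN.mul hn1 hn1))
    (FPN.add (FPN.mul hi1 hn1) hj1))

theorem gOV {n i j : (Fin m → List K) → ℕ} {w : (Fin m → List K) → Word} (hn : FPN m n)
    (hw : FPW m w) (hi : FPN m i) (hj : FPN m j) :
    FPV m (fun ρ => gO (n ρ) (w ρ) (i ρ) (j ρ)) :=
  FPV.ite (gtF hn hw hi hj) (FPV.const 1) (FPV.const 0)

theorem dlV {i j : (Fin m → List K) → ℕ} (hi : FPN m i) (hj : FPN m j) :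
    FPV m (fun ρ => dl (i ρ) (j ρ)) :=
  (FPV.ite (FPB.eqN hi hj) (FPV.const 1) (FPV.const 0)).congr fun ρ => by
    unfold dl
    simp only [decide_eq_true_eq]

theorem mmV {n i j : (Fin m → List K) → ℕ} {e f : (Fin m → List K) → ℕ → ℕ → ℕ} (hn : FPN m n)
    (he : FPV (m + 1) (fun σ => e (fun i => σ i.succ) (i (fun i => σ i.succ)) (σ 0).length))
    (hf : FPV (m + 1) (fun σ => f (fun i => σ i.succ) (σ 0).length (j (fun i => σ i.succ)))) :
    FPV m (fun ρ => mm (n ρ) (e ρ) (f ρ) (i ρ) (j ρ)) :=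
  FPV.sum hn (f := fun l ρ => e ρ (i ρ) l * f ρ l (j ρ)) (FPV.mul he hf)

theorem wEW {n k : (Fin m → List K) → ℕ} {e : (Fin m → List K) → ℕ → ℕ → ℕ} (hn : FPN m n)
    (hk : FPN m k) (he : FPV (m + 1) (fun σ => e (fun i => σ i.succ)
      ((σ 0).length / k (fun i => σ i.succ) / n (fun i => σ i.succ))
      ((σ 0).length / k (fun i => σ i.succ) % n (fun i => σ i.succ)))) :
    FPW m (fun ρ => wE (n ρ) (k ρ) (e ρ)) := by
  refine FPW.range (FPN.mul (FPN.mul hn hn) hk) (b := fun t ρ =>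
    (e ρ (t / k ρ / n ρ) (t / k ρ % n ρ)).testBit (t % k ρ)) ?_
  exact FPB.testBitV he (FPN.mod FPN.v0 (FPN.weak hk))

/-- **AM1** -/
theorem am1 : Am1Stmt := by
  refine ⟨fun m n k h hn hk hh => ?_, fun G hG m n k X Y Z a' b u c hn hk hX hY hZ ha hb hu hc => ?_⟩
  · have hn1 := FPN.weak hn
    have hn2 := FPN.weak hn1
    have hk1 := FPN.weak hk
    have hk2 := FPN.weak hk1
    have hN := FPN.mul hn hn
    have ht := FPW.take hh hN
    have hd := FPW.drop hh hN
    have ht2 := FPW.weak (FPW.weak ht)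
    have hd2 := FPW.weak (FPW.weak hd)
    have q1 := FPN.div (FPN.div (FPN.v0 (C := K) (m := m)) hk1) hn1
    have q2 := FPN.mod (FPN.div (FPN.v0 (C := K) (m := m)) hk1) hn1
    refine FPB.and (redF hn ht) (FPW.eq ?_ ?_)
    · refine wEW (e := fun ρ => mm (n ρ) (gO (n ρ) ((h ρ).take (n ρ * n ρ)))
        (gE (n ρ) (k ρ) ((h ρ).drop (n ρ * n ρ)))) hn hk ?_
      refine mmV (n := fun σ => n (fun i => σ i.succ))
        (i := fun σ => (σ 0).length / k (fun i => σ i.succ) / n (fun i => σ i.succ))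
        (j := fun σ => (σ 0).length / k (fun i => σ i.succ) % n (fun i => σ i.succ))
        (e := fun σ => gO (n fun i => σ i.succ) ((h fun i => σ i.succ).take
          ((n fun i => σ i.succ) * n fun i => σ i.succ)))
        (f := fun σ => gE (n fun i => σ i.succ) (k fun i => σ i.succ) ((h fun i => σ i.succ).drop
          ((n fun i => σ i.succ) * n fun i => σ i.succ))) hn1 ?_ ?_
      · exact gOV hn2 ht2 (FPN.weak q1) FPN.v0
      · exact gEV hn2 hk2 hd2 FPN.v0 (FPN.weak q2)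
    · exact wEW (e := fun _ => dl) hn hk (dlV q1 q2)
  · have hn1 := FPN.weak hn
    have hn2 := FPN.weak hn1
    have hn3 := FPN.weak hn2
    have hk1 := FPN.weak hk
    have hk2 := FPN.weak hk1
    have hk3 := FPN.weak hk2
    have ha3 := FPW.weak (FPW.weak (FPW.weak ha))
    have hu3 := FPW.weak (FPW.weak (FPW.weak hu))
    have hb2 := FPW.weak (FPW.weak hb)
    have q1 := FPN.div (FPN.div (FPN.v0 (C := K) (m := m)) hk1) hn1
    have q2 := FPN.mod (FPN.div (FPN.v0 (C := K) (m := m)) hk1) hn1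
    refine FPB.and (uniF hn hu) ?_
    refine hG m X Y Z (fun ρ => wE (n ρ) (k ρ) (mm (n ρ) (mm (n ρ) (gO (n ρ) (a' ρ))
      (gC (n ρ) (k ρ) (u ρ))) (gE (n ρ) (k ρ) (b ρ)))) c hX hY hZ ?_ hc
    refine wEW (e := fun ρ => mm (n ρ) (mm (n ρ) (gO (n ρ) (a' ρ))
      (gC (n ρ) (k ρ) (u ρ))) (gE (n ρ) (k ρ) (b ρ))) hn hk ?_
    refine mmV (n := fun σ => n (fun i => σ i.succ))
      (i := fun σ => (σ 0).length / k (fun i => σ i.succ) / n (fun i => σ i.succ))
      (j := fun σ => (σ 0).length / k (fun i => σ i.succ) % n (fun i => σ i.succ))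
      (e := fun σ => mm (n fun i => σ i.succ) (gO (n fun i => σ i.succ) (a' fun i => σ i.succ))
        (gC (n fun i => σ i.succ) (k fun i => σ i.succ) (u fun i => σ i.succ)))
      (f := fun σ => gE (n fun i => σ i.succ) (k fun i => σ i.succ) (b fun i => σ i.succ)) hn1 ?_ ?_
    · refine mmV (n := fun σ => n (fun i => σ i.succ.succ))
        (i := fun σ => (σ 1).length / k (fun i => σ i.succ.succ) / n (fun i => σ i.succ.succ))
        (j := fun σ => (σ 0).length)
        (e := fun σ => gO (n fun i => σ i.succ.succ) (a' fun i => σ i.succ.succ))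
        (f := fun σ => gC (n fun i => σ i.succ.succ) (k fun i => σ i.succ.succ)
          (u fun i => σ i.succ.succ)) hn2 ?_ ?_
      · exact gOV hn3 ha3 (FPN.weak (FPN.weak q1)) FPN.v0
      · exact gCV hn3 hk3 hu3 FPN.v0 FPN.v1
    · exact gEV hn2 hk2 hb2 FPN.v0 (FPN.weak q2)

end Pool.Agent.COSB.H75A
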