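import Mathlib
import Pool.Agent.COSB.StmtsL

/-!
# Squad COSB, row IZF: heaps of integer matrices
-/

set_option autoImplicit false

namespace Pool.Agent.COSB.H75Z

open Turing Computability Pool.Agent.UT.Num Pool.Agent.H2XG Pool.Agent.PAR Pool.Agent.COS
open Pool.Agent.COSB

theorem izf (hACT : ActStmt) (hAMC : AmcStmt) (hPAB : PabStmt) (hCHZ : ChzStmt) (hINH : InhStmt)
    (hIZM : IzmStmt) : IzfStmt := by
  intro V d w hV P hH
  obtain ⟨G, hG⟩ : ∃ G : Word → Word → Word → Word → Word → Bool,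
      G = fun x _ _ u c => fI V (d.eval x.length) (w.eval x.length) x u c := ⟨_, rfl⟩
  have hU : U5 G := by
    rw [hG]
    exact hIZM V d w hV
  obtain ⟨g, hg⟩ : ∃ g : Word → Word → Bool, g = fun x c =>
      valA (G x x x) (d.eval x.length) (w.eval x.length + 1)
        (d.eval x.length * d.eval x.length * (w.eval x.length + 1)) c := ⟨_, rfl⟩
  obtain ⟨L, hL⟩ : ∃ L : Word → ℕ, L = fun x =>
      LA (d.eval x.length) (w.eval x.length + 1)
        (d.eval x.length * d.eval x.length * (w.eval x.length + 1)) := ⟨_, rfl⟩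
  have hkF : ∀ (m : ℕ) (A : (Fin m → List K) → Word), FPW m A →
      FPN m (fun ρ => w.eval (A ρ).length + 1) := by
    intro m A hA
    exact (hA.len.poly w).add (FPN.const 1)
  have hlF : ∀ (m : ℕ) (A : (Fin m → List K) → Word), FPW m A →
      FPN m (fun ρ => d.eval (A ρ).length * d.eval (A ρ).length * (w.eval (A ρ).length + 1)) := by
    intro m A hA
    exact ((hA.len.poly d).mul (hA.len.poly d)).mul (hkF m A hA)
  have hgF : ∀ (m : ℕ) (A B : (Fin m → List K) → Word), FPW m A → FPW m B →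
      FPB m (fun ρ => g (A ρ) (B ρ)) := by
    intro m A B hA hB
    rw [hg]
    exact hAMC G hU m A A A B _ _ _ hA hA hA hB (hA.len.poly d) (hkF m A hA) (hlF m A hA)
  have hlaF : ∀ (m : ℕ) (n k l : (Fin m → List K) → ℕ), FPN m n → FPN m k → FPN m l →
      FPN m (fun ρ => LA (n ρ) (k ρ) (l ρ)) := by
    intro m n k l hn hk hl0
    have hhl : FPN m (fun ρ => hl (n ρ) (k ρ)) := (hn.mul hn).add ((hn.mul hn).mul hk)
    have hN : FPN m (fun ρ => k ρ * (n ρ * n ρ)) := hk.mul (hn.mul hn)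
    have hfl : FPN m (fun ρ => fl (k ρ * (n ρ * n ρ))) :=
      ((FPN.const 2).mul hN).add ((FPN.const 2).mul (hN.mul hN))
    have hcl : FPN m (fun ρ => cl (k ρ * (n ρ * n ρ)) (l ρ)) :=
      hl0.add ((hN.mul hl0).add (hN.mul hl0))
    exact hhl.add (hhl.add (hfl.add hcl))
  have hLF : ∀ (m : ℕ) (A : (Fin m → List K) → Word), FPW m A →
      FPN m (fun ρ => L (A ρ)) := by
    intro m A hA
    rw [hL]
    exact hlaF m _ _ _ (hA.len.poly d) (hkF m A hA) (hlF m A hA)
  obtain ⟨k, hk⟩ : ∃ k : Polynomial ℕ, k = w + 1 := ⟨_, rfl⟩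
  obtain ⟨l, hl0⟩ : ∃ l : Polynomial ℕ, l = d * d * k := ⟨_, rfl⟩
  obtain ⟨N, hN⟩ : ∃ N : Polynomial ℕ, N = k * (d * d) := ⟨_, rfl⟩
  obtain ⟨hlP, hhlP⟩ : ∃ hlP : Polynomial ℕ, hlP = d * d + d * d * k := ⟨_, rfl⟩
  have hLq : ∀ x, L x ≤ (hlP + (hlP + ((2 * N + 2 * (N * N)) + (l + (N * l + N * l))))).eval
      x.length := by
    intro x
    rw [hL, hN, hhlP, hl0, hk]
    simp only [Polynomial.eval_add, Polynomial.eval_mul, Polynomial.eval_ofNat, Polynomial.eval_one]
    unfold LA hl fl cl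
    exact le_of_eq rfl
  refine ⟨{x | Od (L x) (fun c => g x c = true)}, hPAB g L _ hgF hLF hLq, ?_⟩
  intro x hx
  have hG' : ∀ u c, G x x x u c = fI V (d.eval x.length) (w.eval x.length) x u c := by
    intro u c
    rw [hG]
  have hch : ∀ u c : Word,
      u.length = d.eval x.length * d.eval x.length * (w.eval x.length + 1) →
      c.length = d.eval x.length * d.eval x.length * (w.eval x.length + 1) →
      (G x x x u c = true ↔ ∃ U ∈ intSols V d w x,
        u = encZ (w.eval x.length) U.1 ∧ c = encZ (w.eval x.length) (U⁻¹).1) := by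
    intro u c hu hc
    rw [hG' u c]
    unfold fI
    simp only [Bool.and_eq_true, decide_eq_true_eq]
    rw [hCHZ (d.eval x.length) (w.eval x.length) u c hu hc]
    constructor
    · rintro ⟨⟨U, hR, e1, e2⟩, hVU⟩
      refine ⟨U, ⟨hR, ?_⟩, e1, e2⟩
      rw [← e1]
      exact hVU
    · rintro ⟨U, ⟨hR, hVU⟩, e1, e2⟩
      refine ⟨⟨U, hR, e1, e2⟩, ?_⟩
      rw [e1]
      exact hVU
  have hI := hINH (d.eval x.length) (w.eval x.length) (intSols V d w x) (hH x hx)
    (fun U hU0 => hU0.1) (G x x x) hch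
  have h1 := hACT (d.eval x.length) (w.eval x.length + 1)
    (d.eval x.length * d.eval x.length * (w.eval x.length + 1)) (G x x x)
    (Nat.le_add_left 1 _) hI.1
  rw [← hI.2, ← h1, hL, hg]
  exact Iff.rfl

end Pool.Agent.COSB.H75Z
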